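import Pool.Agent.TH882.Fin

/-!
Almost all integers `N` for which it is locally possible are sums of two primes `p` and `N - p`
such that `p` lies in a bounded cluster of primes all of whose shifts by the elements of a given
finite set are almost primes.
-/

set_option autoImplicit false

open Finset Filter Topology

namespace Pool.Agent.Results.MP_7b7e48_nt.ClusterSummand

/-- For every prime `l` there is an `r` with `r`, `N - r` and all `r + a`, `a ∈ S`, not divisible
by `l`. -/
def LocallyPossible (S : Finset ℤ) (N : ℕ) : Prop := ∀ l : ℕ, l.Prime → ∃ r : ℤ,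
  ¬ (l : ℤ) ∣ r ∧ ¬ (l : ℤ) ∣ N - r ∧ ∀ a ∈ S, ¬ (l : ℤ) ∣ r + a

/-- All `q + a`, `a ∈ S`, are positive with at most `r` prime factors (with multiplicity). -/
def AlmostPrimeShifts (S : Finset ℤ) (r q : ℕ) : Prop :=
  ∀ a ∈ S, 0 < (q : ℤ) + a ∧ ArithmeticFunction.cardFactors ((q : ℤ) + a).toNat ≤ r

open Classical in
/-- The primes `q ≠ p` with `|q - p| ≤ C` and with almost prime shifts. -/
noncomputable def neighbours (S : Finset ℤ) (r C p : ℕ) : Finset ℕ :=
  (Icc (p - C) (p + C)).filter (fun q => q.Prime ∧ q ≠ p ∧ AlmostPrimeShifts S r q)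

open Classical in
/-- The primes `p < N` with `N - p` prime, with almost prime shifts, and with at least `m`
neighbours. -/
noncomputable def representations (S : Finset ℤ) (m r C N : ℕ) : Finset ℕ :=
  (range N).filter (fun p => p.Prime ∧ (N - p).Prime ∧ AlmostPrimeShifts S r p ∧
    m ≤ (neighbours S r C p).card)

open Classical in
/-- The integers `N < x` for which it is locally possible and which have fewer than
`N / (log N) ^ D` representations. -/
noncomputable def exceptions (S : Finset ℤ) (m r C D x : ℕ) : Finset ℕ :=
  (range x).filter (fun N => LocallyPossible S N ∧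
    ((representations S m r C N).card : ℝ) < N / Real.log N ^ D)

lemma two_cases (N l : ℤ) (a b : ℤ) (h : ¬ l ∣ a - b) : ¬ l ∣ N - a ∨ ¬ l ∣ N - b := by
  by_contra hcon
  push Not at hcon
  apply h
  have : a - b = (N - b) - (N - a) := by ring
  rw [this]
  exact hcon.2.sub hcon.1

lemma small {l : ℕ} {c : ℤ} (hc : 0 < |c|) (h : |c| < l) : ¬ (l : ℤ) ∣ c := by
  intro hd
  have h1 : (l : ℤ) ∣ |c| := (dvd_abs _ _).2 hd
  have := Int.le_of_dvd hc h1
  omega

lemma loc_empty (N : ℕ) : LocallyPossible ∅ N ↔ N % 2 = 0 := by
  constructor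
  · intro h
    obtain ⟨r, h1, h2, -⟩ := h 2 Nat.prime_two
    push_cast at h1 h2
    omega
  · intro he l hl
    rcases Nat.lt_or_ge l 3 with h3 | h3
    · have h2 : l = 2 := by
        have := hl.two_le
        omega
      subst h2
      refine ⟨1, ?_, ?_, by simp⟩
      · omega
      · omega
    · rcases two_cases N l 1 2 (small (by norm_num) (by norm_num; omega)) with h | h
      · exact ⟨1, small (by norm_num) (by norm_num; omega), h, by simp⟩
      · exact ⟨2, small (by norm_num) (by norm_num; omega), h, by simp⟩

lemma loc_two (N : ℕ) : LocallyPossible {2} N ↔ N % 2 = 0 ∧ N % 3 ≠ 2 := by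
  constructor
  · intro h
    obtain ⟨r, h1, h2, -⟩ := h 2 Nat.prime_two
    obtain ⟨t, h3, h4, h5⟩ := h 3 Nat.prime_three
    have h6 := h5 2 (by simp)
    push_cast at h1 h2 h3 h4 h6
    omega
  · rintro ⟨he, h3⟩ l hl
    rcases Nat.lt_or_ge l 5 with h5 | h5
    · have h2 : l = 2 ∨ l = 3 := by
        have := hl.two_le
        interval_cases l
        · left; rfl
        · right; rfl
        · exact absurd hl (by norm_num)
      rcases h2 with rfl | rfl
      · refine ⟨1, by omega, by omega, ?_⟩
        intro a ha
        rw [mem_singleton] at ha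
        subst ha
        omega
      · refine ⟨2, by omega, by omega, ?_⟩
        intro a ha
        rw [mem_singleton] at ha
        subst ha
        omega
    · rcases two_cases N l 1 2 (small (by norm_num) (by norm_num; omega)) with h | h
      · refine ⟨1, small (by norm_num) (by norm_num; omega), h, ?_⟩
        intro a ha
        rw [mem_singleton] at ha
        subst ha
        exact small (by norm_num) (by norm_num; omega)
      · refine ⟨2, small (by norm_num) (by norm_num; omega), h, ?_⟩
        intro a ha
        rw [mem_singleton] at ha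
        subst ha
        exact small (by norm_num) (by norm_num; omega)

lemma loc_neg_two (N : ℕ) : LocallyPossible {-2} N ↔ N % 2 = 0 ∧ N % 3 ≠ 1 := by
  constructor
  · intro h
    obtain ⟨r, h1, h2, -⟩ := h 2 Nat.prime_two
    obtain ⟨t, h3, h4, h5⟩ := h 3 Nat.prime_three
    have h6 := h5 (-2) (by simp)
    push_cast at h1 h2 h3 h4 h6
    omega
  · rintro ⟨he, h3⟩ l hl
    rcases Nat.lt_or_ge l 5 with h5 | h5
    · have h2 : l = 2 ∨ l = 3 := by
        have := hl.two_le
        interval_cases l
        · left; rfl
        · right; rfl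
        · exact absurd hl (by norm_num)
      rcases h2 with rfl | rfl
      · refine ⟨1, by omega, by omega, ?_⟩
        intro a ha
        rw [mem_singleton] at ha
        subst ha
        omega
      · refine ⟨1, by omega, by omega, ?_⟩
        intro a ha
        rw [mem_singleton] at ha
        subst ha
        omega
    · rcases two_cases N l 1 3 (small (by norm_num) (by norm_num; omega)) with h | h
      · refine ⟨1, small (by norm_num) (by norm_num; omega), h, ?_⟩
        intro a ha
        rw [mem_singleton] at ha
        subst ha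
        exact small (by norm_num) (by norm_num; omega)
      · refine ⟨3, small (by norm_num) (by norm_num; omega), h, ?_⟩
        intro a ha
        rw [mem_singleton] at ha
        subst ha
        exact small (by norm_num) (by norm_num; omega)

theorem result :
    (∀ (S : Finset ℤ) (m : ℕ), ∃ r C D : ℕ,
      Tendsto (fun x : ℕ => ((exceptions S m r C D x).card : ℝ) / x) atTop (𝓝 0)) ∧
    (∀ N : ℕ, LocallyPossible ∅ N ↔ N % 2 = 0) ∧
    (∀ N : ℕ, LocallyPossible {2} N ↔ N % 2 = 0 ∧ N % 3 ≠ 2) ∧
    (∀ N : ℕ, LocallyPossible {-2} N ↔ N % 2 = 0 ∧ N % 3 ≠ 1) :=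
  ⟨fun S m => Pool.Agent.TH882.AG.fin S m, loc_empty, loc_two, loc_neg_two⟩

end Pool.Agent.Results.MP_7b7e48_nt.ClusterSummand
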