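import Mathlib
import Pool.Agent.TH881.RG.R1c

/-! Goldbach sums one prime of which is restricted to a dense set of primes: the exact minimal density. -/

set_option autoImplicit false

namespace Pool.Agent.Results.MP_7b7e48_nt.DensePrimeSummand
open Finset Filter Topology

open Classical in
/-- The number of elements of `S` in `[1, x]`. -/
noncomputable def count (S : Set ℕ) (x : ℕ) : ℕ := ((Icc 1 x).filter (fun n => n ∈ S)).card

/-- The lower asymptotic density. -/
noncomputable def lowerDensity (S : Set ℕ) : ℝ := liminf (fun x : ℕ => (count S x : ℝ) / x) atTop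

/-- The lower density, relative to the set of all primes, of the set of the primes in `A`. -/
noncomputable def relLower (A : Set ℕ) : ℝ :=
  liminf (fun x : ℕ => (count {p | p.Prime ∧ p ∈ A} x : ℝ) / (count {p | p.Prime} x : ℝ)) atTop

/-- The sums `p + q` of a prime `p ∈ A` and a prime `q`. -/
def goldbachSums (A : Set ℕ) : Set ℕ := {n | ∃ p q : ℕ, (p.Prime ∧ p ∈ A) ∧ q.Prime ∧ p + q = n}

/-- `F(β)`: the least possible lower density of the set of the sums of a prime of `A` and a prime,
for sets `A` of primes of relative lower density at least `β`. -/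
noncomputable def F (β : ℝ) : ℝ := sInf {d | ∃ A : Set ℕ, β ≤ relLower A ∧ d = lowerDensity (goldbachSums A)}

/-- The product of the primes up to `w`. -/
def P (w : ℕ) : ℕ := ∏ p ∈ (Icc 1 w).filter Nat.Prime, p

instance (w : ℕ) : NeZero (P w) := ⟨(Pool.Agent.TH881.Wp_pos w).ne'⟩

open Classical in
/-- The residue classes modulo `P w` which are units. -/
noncomputable def units (w : ℕ) : Finset (ZMod (P w)) := univ.filter (fun a => IsUnit a)

open Classical in
/-- The sums of an element of `B` and a unit modulo `P w`. -/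
noncomputable def plusUnits (w : ℕ) (B : Finset (ZMod (P w))) : Finset (ZMod (P w)) :=
  univ.filter (fun t => ∃ a ∈ B, IsUnit (t - a))

/-- The local minimum: the infimum of `|B + U| / P w` over all `w` and all sets `B` of at least
`β |U|` units modulo `P w`, where `U` is the set of all units modulo `P w`. -/
noncomputable def localF (β : ℝ) : ℝ := sInf {d | ∃ w : ℕ, ∃ B ⊆ units w,
  β * Nat.totient (P w) ≤ B.card ∧ d = ((plusUnits w B).card : ℝ) / P w}

/-- The twin prime constant `∏ (1 - 1 / (p - 1) ^ 2)`, `p > 2` prime. -/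
noncomputable def C₂ : ℝ := ⨅ z : ℕ, ∏ p ∈ (Icc 3 z).filter Nat.Prime, (1 - 1 / ((p : ℝ) - 1) ^ 2)

/-- `F(β)` is equal to the local minimum for `0 < β < 1`, and
`(1 - β) log log (1 / (1 / 2 - F(β)))` tends to `2 C₂ e ^ (-γ)` as `β` tends to `1` from below. -/
theorem result : (∀ β : ℝ, 0 < β → β < 1 → F β = localF β) ∧
    Tendsto (fun β : ℝ => (1 - β) * Real.log (Real.log (1 / (1 / 2 - F β)))) (𝓝[<] 1)
      (𝓝 (2 * (C₂ * Real.exp (-Real.eulerMascheroniConstant)))) :=
  ⟨fun β h0 h1 => Pool.Agent.TH881.RG.FF_eq β h0 h1, Pool.Agent.TH881.RG.FF_asymp⟩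

end Pool.Agent.Results.MP_7b7e48_nt.DensePrimeSummand
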