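import Pool.Agent.TH872.Mir5
import Pool.Agent.H560R3.GB.Defs

/-!
# Goldbach's conjecture for almost all palindromes, and for digits which depend on their mirror images

Definitions used (all in `Pool.Agent.H560R3.GB`): `C₂`: the twin prime constant
`∏_{p > 2} (1 - 1 / (p - 1) ^ 2)`; `sing n`: the singular series
`2 C₂ ∏_{p ∣ n, p > 2} (p - 1) / (p - 2)`; `g n`: the number of ordered representations of `n` as a
sum of two primes; `HL n = sing n * n / log ^ 2 n`: the prediction of Hardy and Littlewood for `g n`.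

The proof uses the second moment method for integers whose characteristic function is small at all
frequencies with many digits (`Pool.Agent.W93.AU`, starting files). New is the bound for the
characteristic function: the digits at the positions `i` and `k - 1 - i` may depend on each other in an
arbitrary way, and a frequency is recovered from the frequencies of two neighbouring pairs of positions
(`Pool.Agent.TH872.Mir.extract`), because the two positions of a pair are shifted in opposite directions.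
-/

set_option autoImplicit false

namespace Pool.Agent.Results.MP_7b7e48_nt.Palindromes

open Finset Pool.Agent.H560R3.GB

/-- `n` is a sum of two distinct primes, and the number of its representations as a sum of two primes
agrees with the prediction of Hardy and Littlewood up to a relative error of at most `ε`. -/
def Holds (ε : ℝ) (n : ℕ) : Prop :=
  |(g n : ℝ) - HL n| ≤ ε * HL n ∧ ∃ p q : ℕ, p.Prime ∧ q.Prime ∧ p ≠ q ∧ p + q = n

/-- `v` is a palindrome with exactly `k` digits in base `b`: the digit number `j` (which is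
`v / b ^ j % b`) is equal to the digit number `k - 1 - j`, for all `j < k`. -/
def IsPalindrome (b k v : ℕ) : Prop :=
  b ^ (k - 1) ≤ v ∧ v < b ^ k ∧ ∀ j < k, v / b ^ j % b = v / b ^ (k - 1 - j) % b

open Classical in
/-- The number of the palindromes with `k` digits in base `b` which have the property `E`. -/
noncomputable def num (b k : ℕ) (E : ℕ → Prop) : ℕ :=
  ((range (b ^ k)).filter (fun v => IsPalindrome b k v ∧ E v)).card

/-- `c + κ v`, where `v` is the integer with the following `k` digits in base `b`: `(d i).1` at the position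
`i` and `(d i).2` at the mirror position `k - 1 - i`, for `i < k / 2`, and, if `k` is odd, `z` in the
middle. -/
def value (b k : ℕ) (κ c : ℤ) (d : Fin (k / 2) → ℕ × ℕ) (z : ℕ) : ℤ :=
  c + κ * ((∑ i : Fin (k / 2), ((d i).1 * b ^ (i : ℕ) + (d i).2 * b ^ (k - 1 - (i : ℕ))) + k % 2 * z * b ^ (k / 2) : ℕ) : ℤ)

open Classical in
/-- The probability of the event `E` if the pairs of digits `d i`, `i < k / 2`, and the middle digit `z`
are chosen independently of each other, `d i` is equal to `a` with probability `w i a`, and `z` is equal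
to `a` with probability `u a`. -/
noncomputable def Prob (b k : ℕ) (w : ℕ → ℕ × ℕ → ℝ) (u : ℕ → ℝ) (E : (Fin (k / 2) → ℕ × ℕ) → ℕ → Prop) : ℝ :=
  ∑ d ∈ Fintype.piFinset (fun _ : Fin (k / 2) => range b ×ˢ range b), ∑ z ∈ range b,
    if E d z then (∏ i : Fin (k / 2), w i (d i)) * u z else 0

/-- The numbers `w i a`, `i < k / 2`, are distributions of a pair `a` of digits in base `b`, and, for
`i ≥ 1`, two independent copies of the pair differ in BOTH digits with a probability of at least `η`. -/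
structure Pairs (b k : ℕ) (η : ℝ) (w : ℕ → ℕ × ℕ → ℝ) : Prop where
  nonneg : ∀ i < k / 2, ∀ a, 0 ≤ w i a
  sum : ∀ i < k / 2, ∑ a ∈ range b ×ˢ range b, w i a = 1
  differ : ∀ i < k / 2, 1 ≤ i → η ≤ ∑ a ∈ range b ×ˢ range b, ∑ a' ∈ range b ×ˢ range b,
    if a.1 ≠ a'.1 ∧ a.2 ≠ a'.2 then w i a * w i a' else 0

/-- Let `b ≥ 2`, `B`, `U`, `κ ≠ 0`, `η > 0` and `ε > 0` be fixed, let `k` be large, and let `c` be an
arbitrary integer with `|c| ≤ B b ^ k`.

(1) Let `v` be a random integer with `k` digits in base `b`, such that the pairs formed by the digits at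
the positions `i` and `k - 1 - i` are independent of each other for different `i`. Inside of a pair the
digits may depend on each other in an arbitrary way; the distributions of the pairs are arbitrary (and
depend on the position and on `k`), only two independent copies of a pair (with `i ≥ 1`) should differ in
both digits with a probability of at least `η`. Then, with a probability of at least `1 - 1 / k ^ U`, the
integer `n = c + κ v` has the following property: if `n` is positive and even, then `n` is a sum of two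
distinct primes, and the number of representations of `n` as a sum of two primes agrees with the
prediction of Hardy and Littlewood up to a relative error of at most `ε`.

(2) In particular all the palindromes `v` with `k` digits in base `b`, up to a proportion of at most
`1 / k ^ U` of them, have the property: if `c + κ v` is positive and even, then it is a sum of two distinct
primes, and the number of representations is as predicted. -/
theorem result (b B U : ℕ) (hb : 2 ≤ b) (κ : ℤ) (hκ : κ ≠ 0) (η ε : ℝ) (hη : 0 < η) (hε : 0 < ε) :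
    ∃ k₀ : ℕ, ∀ k : ℕ, k₀ ≤ k → ∀ c : ℤ, |c| ≤ B * (b : ℤ) ^ k →
      (∀ (w : ℕ → ℕ × ℕ → ℝ) (u : ℕ → ℝ), Pairs b k η w → (∀ a, 0 ≤ u a) → ∑ a ∈ range b, u a = 1 →
        Prob b k w u (fun d z => 0 < value b k κ c d z ∧ Even (value b k κ c d z) ∧
          ¬ Holds ε (value b k κ c d z).toNat) ≤ 1 / (k : ℝ) ^ U) ∧
      (num b k (fun v => 0 < c + κ * v ∧ Even (c + κ * v) ∧ ¬ Holds ε (c + κ * v).toNat) : ℝ) ≤
        num b k (fun _ => True) / (k : ℝ) ^ U := by
  classical
  have hmain : ∀ s : ℕ, s ≤ 1 → ∀ η : ℝ, 0 < η → ∃ m₀ : ℕ, ∀ m, m₀ ≤ m → ∀ w : ℕ → ℕ × ℕ → ℝ, Pool.Agent.TH872.Mir.Mirr b m η w →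
      ∀ c : ℤ, |c| ≤ B * (b : ℤ) ^ (2 * m + s) → ∀ z < b,
      ∑ g ∈ Pool.Agent.TH872.Mir.Gs b m, (if (0 < c + κ * ((Pool.Agent.TH872.Mir.val b (2 * m + s) g + s * z * b ^ m : ℕ) : ℤ) ∧
        Even (c + κ * ((Pool.Agent.TH872.Mir.val b (2 * m + s) g + s * z * b ^ m : ℕ) : ℤ)) ∧
        ¬ Holds ε (c + κ * ((Pool.Agent.TH872.Mir.val b (2 * m + s) g + s * z * b ^ m : ℕ) : ℤ)).toNat)
        then Pool.Agent.TH872.Mir.pw w g else 0) ≤ 1 / ((2 * m + s : ℕ) : ℝ) ^ U := by
    intro s hs η hη
    obtain ⟨m₀, h0⟩ := Pool.Agent.TH872.Mir.mir_goldbach b hb η hη κ hκ (B + 3 * κ.natAbs) s U ε hε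
    refine ⟨m₀, fun m hm w hw c hc z hz => ?_⟩
    have hcc := Pool.Agent.TH872.Mir.cc_bound b B m s hb hs κ c hc z hz
    have hval : ∀ g : Fin m → ℕ × ℕ, c + κ * ((Pool.Agent.TH872.Mir.val b (2 * m + s) g + s * z * b ^ m : ℕ) : ℤ) =
        (c + κ * ((s * z * b ^ m : ℕ) : ℤ)) + κ * ((Pool.Agent.TH872.Mir.val b (2 * m + s) g : ℕ) : ℤ) := by
      intro g
      push_cast
      ring
    simp only [hval]
    refine h0 m hm w hw _ hcc _ ?_
    intro g _ hg
    exact ⟨hg.1, hg.2.1.two_dvd, hg.2.2⟩
  obtain ⟨m0, h0⟩ := hmain 0 (by norm_num) η hη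
  obtain ⟨m1, h1⟩ := hmain 1 le_rfl η hη
  have hη' : (0 : ℝ) < 1 / (b : ℝ) ^ 2 := by
    have : (0 : ℝ) < b := by exact_mod_cast (by omega : 0 < b)
    positivity
  obtain ⟨m2, h2⟩ := hmain 0 (by norm_num) _ hη'
  obtain ⟨m3, h3⟩ := hmain 1 le_rfl _ hη'
  refine ⟨2 * (m0 + m1 + m2 + m3) + 4, fun k hk c hc => ?_⟩
  obtain ⟨m, hm⟩ : ∃ m, m = k / 2 := ⟨_, rfl⟩
  obtain ⟨s, hs⟩ : ∃ s, s = k % 2 := ⟨_, rfl⟩
  have hs1 : s ≤ 1 := by omega
  have hkms : k = 2 * m + s := by omega
  have hkr : (0 : ℝ) < k := by exact_mod_cast (by omega : 0 < k)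
  have hg : ∀ w : ℕ → ℕ × ℕ → ℝ, Pool.Agent.TH872.Mir.Mirr b m η w → ∀ z < b,
      ∑ g ∈ Pool.Agent.TH872.Mir.Gs b m, (if (0 < c + κ * ((Pool.Agent.TH872.Mir.val b (2 * m + s) g + s * z * b ^ m : ℕ) : ℤ) ∧
        Even (c + κ * ((Pool.Agent.TH872.Mir.val b (2 * m + s) g + s * z * b ^ m : ℕ) : ℤ)) ∧
        ¬ Holds ε (c + κ * ((Pool.Agent.TH872.Mir.val b (2 * m + s) g + s * z * b ^ m : ℕ) : ℤ)).toNat)
        then Pool.Agent.TH872.Mir.pw w g else 0) ≤ 1 / ((2 * m + s : ℕ) : ℝ) ^ U := by
    intro w hw z hz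
    have h4 : s = 0 ∨ s = 1 := by omega
    rw [hkms] at hc
    rcases h4 with rfl | rfl
    · exact h0 m (by omega) w hw c hc z hz
    · exact h1 m (by omega) w hw c hc z hz
  have hg' : ∀ w : ℕ → ℕ × ℕ → ℝ, Pool.Agent.TH872.Mir.Mirr b m (1 / (b : ℝ) ^ 2) w → ∀ z < b,
      ∑ g ∈ Pool.Agent.TH872.Mir.Gs b m, (if (0 < c + κ * ((Pool.Agent.TH872.Mir.val b (2 * m + s) g + s * z * b ^ m : ℕ) : ℤ) ∧
        Even (c + κ * ((Pool.Agent.TH872.Mir.val b (2 * m + s) g + s * z * b ^ m : ℕ) : ℤ)) ∧
        ¬ Holds ε (c + κ * ((Pool.Agent.TH872.Mir.val b (2 * m + s) g + s * z * b ^ m : ℕ) : ℤ)).toNat)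
        then Pool.Agent.TH872.Mir.pw w g else 0) ≤ 1 / ((2 * m + s : ℕ) : ℝ) ^ U := by
    intro w hw z hz
    have h4 : s = 0 ∨ s = 1 := by omega
    rw [hkms] at hc
    rcases h4 with rfl | rfl
    · exact h2 m (by omega) w hw c hc z hz
    · exact h3 m (by omega) w hw c hc z hz
  constructor
  · intro w u hw hu hu1
    have hmir : Pool.Agent.TH872.Mir.Mirr b m η w := by
      rw [hm]
      exact ⟨hw.nonneg, hw.sum, hw.differ⟩
    have hP : Prob b k w u (fun d z => 0 < value b k κ c d z ∧ Even (value b k κ c d z) ∧ ¬ Holds ε (value b k κ c d z).toNat) =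
        ∑ z ∈ range b, u z * ∑ g ∈ Pool.Agent.TH872.Mir.Gs b m, (if (0 < c + κ * ((Pool.Agent.TH872.Mir.val b (2 * m + s) g + s * z * b ^ m : ℕ) : ℤ) ∧
        Even (c + κ * ((Pool.Agent.TH872.Mir.val b (2 * m + s) g + s * z * b ^ m : ℕ) : ℤ)) ∧
        ¬ Holds ε (c + κ * ((Pool.Agent.TH872.Mir.val b (2 * m + s) g + s * z * b ^ m : ℕ) : ℤ)).toNat)
        then Pool.Agent.TH872.Mir.pw w g else 0) := by
      unfold Prob
      rw [sum_comm]
      subst hm hs
      apply sum_congr rfl
      intro z _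
      rw [mul_sum]
      apply sum_congr rfl
      intro d _
      rw [← hkms]
      unfold value Pool.Agent.TH872.Mir.val Pool.Agent.TH872.Mir.pw
      split_ifs
      · ring
      · ring
    rw [hP]
    calc _ ≤ ∑ z ∈ range b, u z * (1 / ((2 * m + s : ℕ) : ℝ) ^ U) :=
          sum_le_sum fun z hz => mul_le_mul_of_nonneg_left (hg w hmir z (mem_range.1 hz)) (hu z)
      _ = _ := by rw [← sum_mul, hu1, one_mul, hkms]
  · have h5 := Pool.Agent.TH872.Mir.pals_of_prob b m s hb (by omega) hs1
      (fun v => 0 < c + κ * v ∧ Even (c + κ * v) ∧ ¬ Holds ε (c + κ * v).toNat) (1 / ((2 * m + s : ℕ) : ℝ) ^ U) (by positivity) (by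
        intro z hz
        convert hg' _ (Pool.Agent.TH872.Mir.w0_mirr b m hb) z hz)
    have e1 : ∀ E : ℕ → Prop, num b k E = ((Pool.Agent.TH872.Mir.Pals b (2 * m + s)).filter E).card := by
      intro E
      unfold num Pool.Agent.TH872.Mir.Pals
      rw [← hkms, filter_filter]
      rfl
    rw [e1, e1, filter_true, ← hkms] at *
    rw [mul_one_div] at h5
    exact h5

end Pool.Agent.Results.MP_7b7e48_nt.Palindromes
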